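import Pool.Agent.Lib.helper24.Marks

set_option autoImplicit false
open Set Function
open Pool.Agent.Lib.helper24.Det

namespace Pool.Agent.H.MP_cafa5e_lc

variable {P : Type} [DecidableEq P] {σ : P × ℕ → P × ℕ}

abbrev X (P : Type) : Type := Z P ℕ × Option P

def up (h : Z P ℕ × P) : X P := (h.1, some h.2)

def mu (σ : P × ℕ → P × ℕ) : X P → X P
  | (z, none) => (z, none)
  | (z, some p) => up (mv σ (z, p))

lemma mu_up (h : Z P ℕ × P) : mu σ (up h) = up (mv σ h) := rfl

def tf (σ : P × ℕ → P × ℕ) : Option P → X P → X P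
  | none => mu σ
  | some p => fun x => (x.1, Equiv.swap none (some p) x.2)

lemma tf_inv (hσ : Involutive σ) (a : Option P) : Involutive (tf σ a) := by
  rintro ⟨z, o⟩
  cases a with
  | none =>
    cases o with
    | none => rfl
    | some p => exact (mu_up _).trans (congrArg up (mv_inv hσ (z, p)))
  | some p => simp [tf]

def tau (hσ : Involutive σ) (a : Option P) : Equiv.Perm (X P) := (tf_inv hσ a).toPerm

instance : MeasurableSpace (Option P) := ⊤

instance : DiscreteMeasurableSpace (Option P) := ⟨fun _ => trivial⟩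

lemma tf_meas [Countable P] (a : Option P) : Measurable (tf σ a) := by
  let _ : MeasurableSpace P := ⊤
  refine measurable_from_prod_countable_left fun o => ?_
  cases a with
  | none =>
    cases o with
    | none => exact measurable_id.prodMk measurable_const
    | some p =>
      exact (mv_meas σ p).fst.prodMk
        ((measurable_from_top (f := (some : P → Option P))).comp (mv_meas σ p).snd)
  | some p => exact measurable_id.prodMk (measurable_const (a := Equiv.swap none (some p) o))

lemma prod_meas [Countable P] (hσ : Involutive σ) (L : List (Option P)) :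
    Measurable (L.map (tau hσ)).prod := by
  induction L with
  | nil => exact measurable_id
  | cons a L ih => rw [List.map_cons, List.prod_cons]; exact (tf_meas a).comp ih

lemma ex_list (hσ : Involutive σ) {g : Equiv.Perm (X P)}
    (hg : g ∈ Subgroup.closure (range (tau hσ))) :
    ∃ L : List (Option P), (L.map (tau hσ)).prod = g := by
  induction hg using Subgroup.closure_induction with
  | mem _ h => obtain ⟨a, rfl⟩ := h; exact ⟨[a], by simp⟩
  | one => exact ⟨[], rfl⟩
  | mul _ _ _ _ a b =>
    obtain ⟨L, rfl⟩ := a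
    obtain ⟨M, rfl⟩ := b
    exact ⟨L ++ M, by simp⟩
  | inv _ _ a =>
    obtain ⟨L, rfl⟩ := a
    refine ⟨L.reverse, ?_⟩
    rw [List.prod_inv_reverse, List.map_map, List.map_reverse]
    rfl

lemma flow [Fintype P] (hσ : Involutive σ) (L : List (Option P)) {A : Set (X P)}
    (hA : MeasurableSet A) : ∃ (I : ℕ → X P → ℤ) (C : ℕ → Z P ℕ × P → ℤ),
    (∀ s p, Measurable fun z => C s (z, p)) ∧ (∀ h, C 0 h = 0) ∧ (∀ s x, 0 ≤ I s x) ∧
    (∀ x, I 0 x = A.indicator 1 x) ∧
    (∀ s, L.length ≤ s → ∀ x, I s x = A.indicator 1 ((L.map (tau hσ)).prod x)) ∧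
    (∀ s z, ∑ p, C s (z, p) = I 0 (z, none) - I s (z, none)) ∧
    ∀ s h, 0 ≤ C (s + 1) h + C s (mv σ h) + I 0 (up h) + I 0 (up (mv σ h)) := by
  obtain ⟨I, hI⟩ : ∃ I : ℕ → X P → ℤ,
    I = fun s x => A.indicator 1 (((L.take s).map (tau hσ)).prod x) := ⟨_, rfl⟩
  have mI : ∀ s, Measurable (I s) := fun s => by
    rw [hI]; exact (measurable_one.indicator hA).comp (prod_meas hσ _)
  have pI : ∀ s x, 0 ≤ I s x := fun s x => by
    rw [hI]; exact indicator_nonneg (fun _ _ => zero_le_one) _
  have sI : ∀ s x, I (s + 1) x = I s ((L[s]?.elim id (tf σ)) x) := fun s x => by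
    simp only [hI, List.take_add_one, List.map_append, List.prod_append]
    cases L[s]? with
    | none => rfl
    | some a => simp; rfl
  obtain ⟨D, hD⟩ : ∃ D : ℕ → Z P ℕ × P → ℤ, D = fun s h =>
    if L[s]? = some (some h.2) then I s (h.1, none) - I (s + 1) (h.1, none) else 0 := ⟨_, rfl⟩
  have D1 : ∀ s z, ∑ p, D s (z, p) = I s (z, none) - I (s + 1) (z, none) := by
    intro s z
    simp only [hD]
    have := sI s (z, none)
    generalize L[s]? = o at this
    rcases o with _ | _ | r
    · simp [this]
    · simp [this, tf, mu]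
    · simp
  have D2 : ∀ s r h, L[s]? = some (some r) → D s h = I (s + 1) (up h) - I s (up h) := by
    intro s r h e
    simp only [hD, sI, e, Option.some.injEq, Option.elim, tf, up]
    split_ifs with c
    · simp [c]
    · rw [Equiv.swap_apply_of_ne_of_ne (by simp) (by simpa using Ne.symm c), sub_self]
  have D3 : ∀ s h, D s h + D s (mv σ h) =
      I (s + 1) (up h) + I (s + 1) (up (mv σ h)) - I s (up h) - I s (up (mv σ h)) := by
    intro s h
    rcases e : L[s]? with _ | _ | r
    · simp [hD, sI, e]
    · simp [hD, sI, e, tf, mu_up, mv_inv hσ h]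
    · rw [D2 s r _ e, D2 s r _ e]; ring
  have D4 : ∀ s h, 0 ≤ D s h + I s (up h) := by
    intro s h
    by_cases e : L[s]? = some (some h.2)
    · rw [D2 s _ _ e]; simpa using pI _ _
    · simpa [hD, e] using pI _ _
  refine ⟨I, fun s h => ∑ i ∈ Finset.range s, D i h, fun s p => ?_, fun _ => rfl, pI,
    fun x => by rw [hI]; rfl, fun s hs x => by simp only [hI, List.take_of_length_le hs],
    fun s z => ?_, fun s h => ?_⟩
  · refine Finset.measurable_sum _ fun i _ => ?_
    simp only [hD]
    split_ifs
    · exact ((mI _).comp measurable_prodMk_right).sub ((mI _).comp measurable_prodMk_right)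
    · exact measurable_const
  · rw [Finset.sum_comm]
    simp only [D1]
    exact Finset.sum_range_sub' (fun i => I i (z, none)) s
  · have : ∑ i ∈ Finset.range s, D i h + ∑ i ∈ Finset.range s, D i (mv σ h) =
        I s (up h) + I s (up (mv σ h)) - I 0 (up h) - I 0 (up (mv σ h)) := by
      induction s with
      | zero => simp
      | succ s ih =>
        rw [Finset.sum_range_succ, Finset.sum_range_succ]
        linarith [D3 s h]
    simp only [Finset.sum_range_succ]
    linarith [D4 s h, pI s (up (mv σ h))]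

lemma step [Fintype P] (two : ∀ p, ∃ c c', (σ (p, c)).1 ≠ (σ (p, c')).1)
    {f f' : Z P ℕ × P → ℤ} (hm : ∀ p, Measurable fun z => f' (z, p))
    (h1 : ∀ p, Far p {z | 0 ≤ f' (z, p)}) (h2 : ∀ z, ∑ p, f' (z, p) ≤ 1)
    (h3 : ∀ h, 0 ≤ f h + f' (mv σ h)) (p : P) : Far p {z | 0 ≤ f (z, p)} := by
  have key : ∃ c, Near (σ (p, c)).1 {z | 1 ≤ f' (z, (σ (p, c)).1)}ᶜ := by
    obtain ⟨c, c', hc⟩ := two p
    by_contra h
    push Not at h
    have a := fun c => (far_or_near _ (measurableSet_le measurable_const (hm _))).resolve_right (h c)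
    obtain ⟨z, hz⟩ := vertex (S := fun r => {z | (if r = (σ (p, c)).1 then 1 else 0) +
        (if r = (σ (p, c')).1 then 1 else 0) ≤ f' (z, r)}) fun r => by
      split_ifs with b b' b'
      · exact absurd (b.symm.trans b') hc
      · subst b; exact a c
      · subst b'; exact a c'
      · exact h1 r
    simp only [mem_ofPred_eq] at hz
    have := Finset.sum_le_sum fun r (_ : r ∈ Finset.univ) => hz r
    simp only [Finset.sum_add_distrib, Finset.sum_ite_eq', Finset.mem_univ, if_true] at this
    linarith [h2 z]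
  obtain ⟨c, hc⟩ := key
  refine (edge σ rfl hc).mono fun z ⟨a, b⟩ => ?_
  have := h3 (z, p)
  simp only [mem_compl_iff, mem_ofPred_eq, ← a, Prod.mk.eta] at b ⊢
  omega

lemma no_para [Fintype P] (hσ : Involutive σ) (two : ∀ p, ∃ c c', (σ (p, c)).1 ≠ (σ (p, c')).1)
    {ι : Type} [Fintype ι] (A : ι → Set (X P)) (L : ι → List (Option P))
    (mA : ∀ i, MeasurableSet (A i)) (h1 : ∀ i, ∀ x ∈ A i, x.2 = none)
    (h2 : Pairwise (Disjoint on A))
    (h3 : ∀ z, ∃ i j, i ≠ j ∧ ((L i).map (tau hσ)).prod (z, none) ∈ A i ∧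
      ((L j).map (tau hσ)).prod (z, none) ∈ A j) : False := by
  classical
  choose I C a1 a2 a3 a4 a5 a6 a7 using fun i => flow hσ (L i) (mA i)
  have b1 : ∀ x, ∑ i, I i 0 x ≤ 1 := by
    intro x
    simp only [a4]
    by_cases h : ∃ i, x ∈ A i
    · obtain ⟨i, hi⟩ := h
      rw [Finset.sum_eq_single i (fun j _ hj => indicator_of_notMem
        (fun h => disjoint_left.1 (h2 hj) h hi) _) (by simp), indicator_of_mem hi]; rfl
    · push Not at h
      simp [h]
  have b2 : ∀ s z, ∑ p, ∑ i, C i s (z, p) = ∑ i, I i 0 (z, none) - ∑ i, I i s (z, none) := by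
    intro s z
    rw [Finset.sum_comm, ← Finset.sum_sub_distrib]
    simp only [a6]
  have far : ∀ s p, Far p {z | 0 ≤ ∑ i, C i s (z, p)} := by
    intro s
    induction s with
    | zero => exact fun p => ⟨fun _ _ => 0, fun _ _ _ _ => rfl, fun z _ => by simp [a2]⟩
    | succ s ih =>
      refine step two (f := fun h => ∑ i, C i (s + 1) h) (f' := fun h => ∑ i, C i s h)
        (fun p => Finset.measurable_sum _ fun i _ => a1 i s p) ih (fun z => ?_) fun h => ?_
      · have := Finset.sum_nonneg fun i (_ : i ∈ Finset.univ) => a3 i s (z, none)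
        linarith [b1 (z, none), b2 s z]
      · rw [← Finset.sum_add_distrib]
        refine Finset.sum_nonneg fun i _ => ?_
        have := a7 i s h
        have n : ∀ h, up h ∉ A i := fun h hh => by simpa [up] using h1 i _ hh
        rwa [a4, a4, indicator_of_notMem (n _), indicator_of_notMem (n _), add_zero, add_zero]
          at this
  obtain ⟨z, hz⟩ := vertex (far (∑ i, (L i).length))
  obtain ⟨i, j, hij, hi, hj⟩ := h3 z
  simp only [mem_ofPred_eq] at hz
  have c1 := Finset.sum_nonneg fun p (_ : p ∈ Finset.univ) => hz p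
  have c2 := Finset.add_le_sum (f := fun i => I i (∑ i, (L i).length) (z, none))
    (fun i _ => a3 i _ _) (Finset.mem_univ i) (Finset.mem_univ j) hij
  have c3 : ∀ i, (L i).length ≤ ∑ i, (L i).length := fun i =>
    Finset.single_le_sum (f := fun i => (L i).length) (fun _ _ => Nat.zero_le _) (Finset.mem_univ i)
  beta_reduce at c2
  rw [a5 i _ (c3 i), a5 j _ (c3 j), indicator_of_mem hi, indicator_of_mem hj] at c2
  simp only [Pi.one_apply] at c2
  linarith [b1 (z, none), b2 (∑ i, (L i).length) z]

end Pool.Agent.H.MP_cafa5e_lc
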